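import Pool.Agent.Helper12.G6.Tk6
import Pool.Agent.Helper26.G5.Heights5

/-!
# All heights, with a constant proportional to the square of the real part of the direction

`heights6` is the proof of `Pool.Agent.Helper26.G5.heights5` with `tk6` in place of `tk_pos`.
-/

set_option autoImplicit false

namespace Pool.Agent.Helper12.G6

open MeasureTheory Set
open scoped Real
open Pool.Agent.Helper90.G2 (Bx Wn Fn ar ch Cen chi)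
open Pool.Agent.Helper26.G4 (vt Br Lb wd al rr w0 Bad cn vk lv KN Sa Sc mm KK C9 Sg)
open Pool.Agent.Helper26.G5

theorem heights6 : ∃ c : ℝ, 0 < c ∧ c ≤ 1 / 8 ∧ ∀ e0 : ℝ, 0 < e0 → e0 ≤ 1 →
    ∃ δ₀ : ℝ, 0 < δ₀ ∧ δ₀ ≤ 1 / 4 ∧ ∀ t : ℂ, t ≠ 0 → ‖t‖ < δ₀ →
      e0 * ‖t‖ ≤ t.re → ∃ C : ℝ, 0 ≤ C ∧
      ∀ ψ h : ℂ → ℂ, Sg ψ h → ∀ y : ℝ, 0 < y → y ≤ 1 →
        ∫ ξ in (0:ℝ)..(2 * π), ‖Complex.exp ((2 - t) * h (Complex.exp ⟨y, ξ⟩))‖ ≤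
          C * y ^ (-(1 - t.re + (1 / 4 - c * e0 ^ 2) * ‖t‖ ^ 2)) := by
  obtain ⟨C0, hC0, hsig⟩ := Pool.Agent.Helper26.G4.sig4
  obtain ⟨Ca, hCa, hyex⟩ := y_ex5
  obtain ⟨γ, hγ, hγ1, htk6⟩ := tk6
  refine ⟨γ / 16, by positivity, by linarith, ?_⟩
  intro e0 he he01
  obtain ⟨κt, bt, B, Cc, m₁, ⟨hbt, hbt1, hB, hCc, hm₁⟩, htk⟩ := htk6 e0 he he01
  have hγe : γ / 16 * e0 ^ 2 = γ * e0 ^ 2 / 16 := by ring
  rw [hγe]
  have hc0 : 0 < γ * e0 ^ 2 := by positivity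
  have hc01 : γ * e0 ^ 2 ≤ 1 / 2 := by
    have h1 : e0 ^ 2 ≤ 1 := pow_le_one₀ he.le he01
    have h2 := mul_le_mul hγ1 h1 (by positivity) (by norm_num)
    linarith
  generalize γ * e0 ^ 2 = c₀ at htk hc0 hc01 ⊢
  obtain ⟨κ, hκ, hκ1, hκ2, εp, hεp, hεp1, M, hM, hκM, hMκ, Cθ, δw, hCθ, hδw, hδw1, hw⟩ :=
    param5 (ε' := c₀ / 16) hCa (by positivity) hbt hbt1 hc0 hc01 hB hCc hm₁
  have hC9 : (0:ℝ) < C9 := by
    unfold C9
    norm_num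
  obtain ⟨C', hC'⟩ : ∃ C' : ℝ, C' = 4 * Cθ + 1 := ⟨_, rfl⟩
  have hC'0 : 0 < C' := by
    rw [hC']
    positivity
  obtain ⟨s₀, hs₀⟩ : ∃ s₀ : ℝ, s₀ = c₀ / 12 := ⟨_, rfl⟩
  have hs0 : 0 < s₀ := by
    rw [hs₀]
    positivity
  have hs1 : s₀ ≤ 1 / 3 := by
    rw [hs₀]
    linarith
  have hMC : 0 < 3 * (C9 * M + 1) := by positivity
  refine ⟨min (1 / 4) (min (δw / 2) (min (s₀ / (4 * C')) (2 / (3 * (C9 * M + 1))))),
    ?_, min_le_left _ _, ?_⟩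
  · exact lt_min (by norm_num) (lt_min (by positivity) (lt_min (by positivity) (by positivity)))
  intro t ht0 ht' hte
  rw [lt_min_iff, lt_min_iff, lt_min_iff] at ht'
  obtain ⟨ht1, ht2, ht3, ht4⟩ := ht'
  have hs : 0 < ‖t‖ := norm_pos_iff.mpr ht0
  obtain ⟨s, hsd⟩ : ∃ s : ℝ, s = ‖t‖ := ⟨_, rfl⟩
  rw [← hsd] at hs ht1 ht2 ht3 ht4
  rw [lt_div_iff₀ (by positivity)] at ht3
  rw [lt_div_iff₀ hMC] at ht4
  -- `θ`, `τ`
  obtain ⟨θ, hθ⟩ : ∃ θ : ℝ, θ = C' * s ^ 2 := ⟨_, rfl⟩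
  have hθ0 : 0 < θ := by
    rw [hθ]
    positivity
  have hCs : C' * s ≤ 1 / 12 := by linarith
  have hCs0 : 0 < C' * s := by positivity
  have hθs : θ = (C' * s) * s := by
    rw [hθ]
    ring
  have hθ12 : θ ≤ s / 12 := by
    rw [hθs]
    nlinarith
  have hθ1 : θ ≤ 1 := by linarith
  obtain ⟨τ, hτ⟩ : ∃ τ : ℂ, τ = (t + 2 * θ) / (1 + θ) := ⟨_, rfl⟩
  have h1θ : (1 + (θ : ℂ)) ≠ 0 := by
    have h : (1 + (θ : ℂ)) = ((1 + θ : ℝ) : ℂ) := by push_cast; rfl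
    rw [h, Complex.ofReal_ne_zero]
    linarith
  have hm : (2 - τ) * (1 + θ) = 2 - t := by
    rw [hτ, sub_mul, div_mul_cancel₀ _ h1θ]
    ring
  have hτm : τ * ((1 + θ : ℝ) : ℂ) = t + ((2 * θ : ℝ) : ℂ) := by
    rw [hτ]
    push_cast
    rw [div_mul_cancel₀ _ h1θ]
  have hτn : ‖τ‖ * (1 + θ) = ‖t + ((2 * θ : ℝ) : ℂ)‖ := by
    rw [← hτm, norm_mul, Complex.norm_real, Real.norm_eq_abs, abs_of_pos (by linarith : 0 < 1 + θ)]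
  have h2θ : ‖((2 * θ : ℝ) : ℂ)‖ = 2 * θ := by
    rw [Complex.norm_real, Real.norm_eq_abs, abs_of_pos (by linarith)]
  have hup : ‖τ‖ * (1 + θ) ≤ s + 2 * θ := by
    rw [hτn]
    refine (norm_add_le _ _).trans ?_
    rw [h2θ, hsd]
  have hlow : s - 2 * θ ≤ ‖τ‖ * (1 + θ) := by
    rw [hτn]
    have h := norm_sub_le (t + ((2 * θ : ℝ) : ℂ)) ((2 * θ : ℝ) : ℂ)
    rw [add_sub_cancel_right, h2θ, ← hsd] at h
    linarith
  obtain ⟨δ, hδ⟩ : ∃ δ : ℝ, δ = ‖τ‖ := ⟨_, rfl⟩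
  rw [← hδ] at hup hlow
  have hδn : 0 ≤ δ := by rw [hδ]; exact norm_nonneg _
  have hδup : δ ≤ s + 2 * θ := by
    have : δ ≤ δ * (1 + θ) := le_mul_of_one_le_right hδn (by linarith)
    linarith
  have hδlow : s / 2 ≤ δ := by
    by_contra hcon
    push Not at hcon
    have h1 : δ * (1 + θ) ≤ (s / 2) * (1 + θ) := mul_le_mul_of_nonneg_right hcon.le (by linarith)
    nlinarith
  have hδ0 : 0 < δ := by linarith
  have hδ2 : δ ≤ 2 * s := by linarith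
  have hδw2 : δ < δw := by linarith
  have hθδ : θ ≤ δ := by linarith
  have hCθδ : Cθ * δ ^ 2 ≤ θ := by
    have h1 : δ ^ 2 ≤ (2 * s) ^ 2 := pow_le_pow_left₀ hδn hδ2 2
    have h2 : Cθ * δ ^ 2 ≤ Cθ * (2 * s) ^ 2 := mul_le_mul_of_nonneg_left h1 hCθ
    have h3 : 0 ≤ s ^ 2 := sq_nonneg s
    rw [hθ, hC']
    nlinarith
  obtain ⟨hSm, hGθ⟩ := hw δ hδ0 hδw2
  obtain ⟨hKKθ, hGle⟩ := hGθ θ hCθδ hθδ
  have hexp : ((1 - c₀) / 4 + c₀ / 16 + c₀ / 16) * δ ^ 2 ≤ (1 / 4 - c₀ / 16) * s ^ 2 := by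
    have h0 : δ ≤ s * (1 + 2 * (C' * s)) := by
      have e : s * (1 + 2 * (C' * s)) = s + 2 * θ := by
        rw [hθs]
        ring
      rw [e]
      exact hδup
    have h1 : (1 + 2 * (C' * s)) ^ 2 ≤ 1 + 3 * s₀ := by nlinarith
    have h2 : ((1 - c₀) / 4 + c₀ / 16 + c₀ / 16) * (1 + 3 * s₀) ≤ 1 / 4 - c₀ / 16 := by
      rw [hs₀]
      nlinarith [sq_nonneg c₀]
    have h4 : 0 ≤ (1 - c₀) / 4 + c₀ / 16 + c₀ / 16 := by linarith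
    have h3 : δ ^ 2 ≤ (s * (1 + 2 * (C' * s))) ^ 2 := pow_le_pow_left₀ hδn h0 2
    calc ((1 - c₀) / 4 + c₀ / 16 + c₀ / 16) * δ ^ 2 ≤
          ((1 - c₀) / 4 + c₀ / 16 + c₀ / 16) * (s * (1 + 2 * (C' * s))) ^ 2 :=
          mul_le_mul_of_nonneg_left h3 h4
      _ = s ^ 2 * (((1 - c₀) / 4 + c₀ / 16 + c₀ / 16) * (1 + 2 * (C' * s)) ^ 2) := by ring
      _ ≤ s ^ 2 * (((1 - c₀) / 4 + c₀ / 16 + c₀ / 16) * (1 + 3 * s₀)) :=
          mul_le_mul_of_nonneg_left (mul_le_mul_of_nonneg_left h1 h4) (sq_nonneg s)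
      _ ≤ s ^ 2 * (1 / 4 - c₀ / 16) := mul_le_mul_of_nonneg_left h2 (sq_nonneg s)
      _ = (1 / 4 - c₀ / 16) * s ^ 2 := by ring
  have hc1 : 3 * κ * (C9 * δ ^ 2 * M) ≤ 1 / 2 := by
    have h1 : δ ^ 2 ≤ (2 * s) ^ 2 := pow_le_pow_left₀ hδn hδ2 2
    have h2 : C9 * δ ^ 2 * M ≤ C9 * (2 * s) ^ 2 * M := by gcongr
    have h3 : 3 * κ * (C9 * δ ^ 2 * M) ≤ 3 * (1 / 4) * (C9 * (2 * s) ^ 2 * M) := by gcongr
    have h4 : s * (C9 * M) ≤ 2 / 3 := by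
      have h5 : s * (3 * (C9 * M + 1)) = 3 * (s * (C9 * M)) + 3 * s := by ring
      rw [h5] at ht4
      linarith
    have h6 : 0 ≤ s * (C9 * M) := by positivity
    calc 3 * κ * (C9 * δ ^ 2 * M) ≤ 3 * (1 / 4) * (C9 * (2 * s) ^ 2 * M) := h3
      _ = 3 * s * (s * (C9 * M)) := by ring
      _ ≤ 3 * (1 / 4) * (2 / 3) := by gcongr
      _ = 1 / 2 := by norm_num
  -- the template
  have hdir : Tk κt (τ / ‖τ‖) bt c₀ B Cc m₁ := by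
    have hτ0 : 0 < ‖τ‖ := by rw [← hδ]; exact hδ0
    apply htk
    · rw [norm_div, Complex.norm_real, norm_norm, div_self hτ0.ne']
    · rw [Complex.div_ofReal_re, le_div_iff₀ hτ0]
      have h1 : τ.re * (1 + θ) = t.re + 2 * θ := by
        have h2 := congrArg Complex.re hτm
        rw [Complex.re_mul_ofReal, Complex.add_re, Complex.ofReal_re] at h2
        exact h2
      have h2 : e0 ≤ 1 := he01
      have h3 : e0 * ‖τ‖ * (1 + θ) ≤ τ.re * (1 + θ) := by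
        rw [h1]
        have h4 : e0 * (‖τ‖ * (1 + θ)) ≤ e0 * (s + 2 * θ) := by
          apply mul_le_mul_of_nonneg_left _ he.le
          rw [← hδ]
          exact hup
        have h5 : e0 * (2 * θ) ≤ 1 * (2 * θ) := mul_le_mul_of_nonneg_right h2 (by linarith)
        rw [← hsd] at hte
        linarith
      exact le_of_mul_le_mul_right h3 (by linarith)
  -- the constants
  obtain ⟨E, hE⟩ : ∃ E : ℝ, E = 2 * (KN (2 ^ M) * Real.exp (KN (2 ^ M))) := ⟨_, rfl⟩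
  have hKN : 1 ≤ KN (2 ^ M) := by
    unfold KN
    exact Real.one_le_exp (by positivity)
  have hE1 : 1 ≤ E := by
    rw [hE]
    have : 1 ≤ Real.exp (KN (2 ^ M)) := Real.one_le_exp (by linarith)
    nlinarith
  obtain ⟨D0, hD0⟩ : ∃ D0 : ℝ, D0 = (1 + 2 * (C0 * Real.exp (C0 + 7))) ^ 2 := ⟨_, rfl⟩
  have hD00 : 0 ≤ D0 := by
    rw [hD0]
    positivity
  obtain ⟨b, hb⟩ : ∃ b : ℝ, b = 1 - t.re + (1 / 4 - c₀ / 16) * s ^ 2 := ⟨_, rfl⟩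
  have htn : ‖t‖ ≤ 1 / 4 := by rw [← hsd]; linarith
  have hb0 : 0 ≤ b := by
    have h1 : t.re ≤ 1 / 4 := (le_abs_self _).trans ((Complex.abs_re_le_norm t).trans htn)
    have h2 : 0 ≤ (1 / 4 - c₀ / 16) * s ^ 2 := mul_nonneg (by linarith) (sq_nonneg s)
    rw [hb]
    linarith
  have hN1 : 1 ≤ 2 ^ M := Nat.one_le_two_pow
  refine ⟨Real.exp (3 * (4 * 2 ^ M + 2)) * (2 * π * (E ^ 2 * Real.exp 2) * D0 * 2 ^ b),
    by positivity, ?_⟩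
  intro ψ h hS y hy hy1
  obtain ⟨-, Λ, hF, hΛ, hdiag, hLb⟩ := hsig ψ h hS
  rw [← hsd, ← hb]
  refine Pool.Agent.Helper26.G4.heightsB_core (A := C0) hF hΛ hS hdiag htn hM hb0 (by positivity) (fun K => ?_) hy hy1
  have hint := Pool.Agent.Helper26.G4.heightsB_int (K := K) hS hm hθ1 htn (κ := κ)
    (c' := C9 * δ ^ 2 * M)
    (D := (((2 ^ M : ℕ) : ℝ) ^ (((1 - c₀) / 4 + c₀ / 16) * δ ^ 2)) ^ K * D0) (E := E) (N := 2 ^ M)
    hκ hκ1 (by positivity) hc1 hE1 hN1 hκM (by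
      intro ξ hξ
      obtain ⟨yy, χ, hyy⟩ := hyex _ C0 Λ hF hΛ M hM bt c₀ B Cc m₁ κ εp τ hεp hbt hB hCc
        (by rw [← hδ]; exact hSm) ξ
      have hξ7 : |ξ| ≤ 7 := by
        have hpi := Real.pi_lt_d2
        rw [abs_le]
        constructor
        · linarith [hξ.1]
        · linarith [hξ.2]
      have hnode := node5 hF (by linarith) hΛ hM hdir hκ hκ1 hMκ hεp hεp1
        (by rw [← hδ]; exact hSm) (C := C0) (by linarith) hξ7 (fun u hu => hLb ξ u hu) hyy hθ1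
        (by rw [← hδ]; exact hKKθ)
        (G := ((2 ^ M : ℕ) : ℝ) ^ (((1 - c₀) / 4 + c₀ / 16) * δ ^ 2))
        (by rw [← hδ]; exact hGle) K
      rw [← hE, ← hD0, ← hδ] at hnode
      refine le_trans (le_of_eq ?_) hnode
      apply Finset.sum_congr rfl
      intro d _
      rw [hdiag _ (by
        show 0 < 2 * (1 / ((2 ^ M : ℕ) : ℝ) ^ K)
        positivity)])
  refine hint.trans ?_
  have hKK := heights5_K (a := t.re) hκ2 hexp M K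
  rw [← hb] at hKK
  calc 2 * π * (E ^ 2 * Real.exp 2) * ((((2 ^ M : ℕ) : ℝ) ^ (((1 - c₀) / 4 + c₀ / 16) * δ ^ 2)) ^ K * D0 *
        (((2 ^ M : ℕ) : ℝ) ^ K) ^ (1 - t.re) * Real.exp (6 * κ * (C9 * δ ^ 2 * M) * K))
      = 2 * π * (E ^ 2 * Real.exp 2) * D0 *
        ((((2 ^ M : ℕ) : ℝ) ^ (((1 - c₀) / 4 + c₀ / 16) * δ ^ 2)) ^ K *
        (((2 ^ M : ℕ) : ℝ) ^ K) ^ (1 - t.re) * Real.exp (6 * κ * (C9 * δ ^ 2 * M) * K)) := by ring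
    _ ≤ 2 * π * (E ^ 2 * Real.exp 2) * D0 * (((2 ^ M : ℕ) : ℝ) ^ K) ^ b :=
        mul_le_mul_of_nonneg_left hKK (by positivity)

end Pool.Agent.Helper12.G6
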