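import Pool.Agent.Helper33.G5.Inst

/-!
# One template for all directions in the right half plane

The quartic template of G5 (`Pq_right`), with the lower bounds in a form which is uniform in the
direction.
-/

set_option autoImplicit false

namespace Pool.Agent.Helper12.G6

open MeasureTheory Set
open scoped Real
open Pool.Agent.Helper33.G3 Pool.Agent.Helper33.G5

/-- one template for all directions -/
structure Tu (k : ℂ → ℝ) (Lk ρ kinf c1 c2 C2 : ℝ) : Prop where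
  meas : Measurable k
  bd : ∀ z, |k z| ≤ 1
  lip : ∀ z z', |k z - k z'| ≤ Lk * ‖z - z'‖
  far : ∀ z, ρ ≤ ‖z‖ → k z = kinf
  hL : 0 < Lk
  hρ : 0 < ρ
  hc1 : 0 < c1
  hc2 : 0 < c2
  hC2 : 0 ≤ C2
  F1 : ∀ ζ : ℂ, ζ ≠ 0 → ∀ e : ℝ, 0 ≤ e → e ≤ 1 → e ≤ ‖1 / ζ - 1‖ →
    ∫ z in Metric.ball (1 : ℂ) 1, (k (z / ζ) - k z) ≤ -(c1 * e ^ 2)
  F2 : ∀ v : ℂ, ‖v‖ = 1 → ∀ ζ : ℂ, ζ ≠ 0 → ‖1 / ζ - 1‖ ≤ 1 / 2 → ∀ m : ℝ, 0 < m → m ≤ 1 / 12 →
    (c2 * v.re - C2 * (m + ‖1 / ζ - 1‖)) * m ≤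
      ∫ z in Metric.ball (1 : ℂ) 1, (k ((z - ((2 * m : ℝ) : ℂ) * v) / ζ) - k (z / ζ))

/-- the difference quotient in real coordinates -/
noncomputable def Df (p : ℝ × ℝ × ℝ × ℝ × ℝ) : ℝ :=
  Dr p.1 p.2.1 p.2.2.1 (-2 * (p.2.2.2.1 * p.2.1 - p.2.2.2.2 * p.2.2.1))
    (-2 * (p.2.2.2.1 * p.2.2.1 + p.2.2.2.2 * p.2.1)) (p.2.1 ^ 2 + p.2.2.1 ^ 2)

theorem Df_smooth : ContDiff ℝ 1 Df := by
  unfold Df Dr
  fun_prop

theorem Df_lip : ∃ C : ℝ, 0 ≤ C ∧ ∀ m a b x y : ℝ, |m| ≤ 2 → |a| ≤ 2 → |b| ≤ 2 → |x| ≤ 2 →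
    |y| ≤ 2 → |Df (m, a, b, x, y) - Df (0, 1, 0, x, y)| ≤ C * max |m| (max |a - 1| |b|) := by
  obtain ⟨C, hC⟩ := (isCompact_closedBall (0 : ℝ × ℝ × ℝ × ℝ × ℝ) 2).exists_bound_of_continuousOn
    (Df_smooth.continuous_fderiv (by norm_num)).continuousOn
  refine ⟨max C 0, le_max_right _ _, fun m a b x y hm ha hb hx hy => ?_⟩
  have h1 : (m, a, b, x, y) ∈ Metric.closedBall (0 : ℝ × ℝ × ℝ × ℝ × ℝ) 2 := by
    rw [mem_closedBall_zero_iff]
    simp only [Prod.norm_mk, Real.norm_eq_abs, max_le_iff]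
    exact ⟨hm, ha, hb, hx, hy⟩
  have h2 : ((0 : ℝ), (1 : ℝ), (0 : ℝ), x, y) ∈ Metric.closedBall (0 : ℝ × ℝ × ℝ × ℝ × ℝ) 2 := by
    rw [mem_closedBall_zero_iff]
    simp only [Prod.norm_mk, Real.norm_eq_abs, max_le_iff]
    refine ⟨by norm_num, by norm_num, by norm_num, hx, hy⟩
  have h3 := (convex_closedBall (0 : ℝ × ℝ × ℝ × ℝ × ℝ) 2).norm_image_sub_le_of_norm_fderiv_le
    (fun z _ => (Df_smooth.differentiable (by norm_num)).differentiableAt) (C := max C 0)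
    (fun z hz => (hC z hz).trans (le_max_left _ _)) h2 h1
  rw [Real.norm_eq_abs] at h3
  refine h3.trans (le_of_eq ?_)
  congr 1
  simp only [Prod.mk_sub_mk, sub_zero, sub_self, Prod.norm_mk, Real.norm_eq_abs]
  rw [norm_zero, max_eq_left (abs_nonneg b)]

theorem Df_one (x y : ℝ) : Df (0, 1, 0, x, y) = 2 / 3 * x := by
  unfold Df Dr
  ring

theorem exists_tu : ∃ (k : ℂ → ℝ) (Lk ρ kinf c1 c2 C2 : ℝ), Tu k Lk ρ kinf c1 c2 C2 := by
  have hP := Pq_right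
  obtain ⟨M₀, L₀, hM₀, hL₀, hM, hL⟩ := BL_kV hP
  obtain ⟨C, hC0, hC⟩ := Df_lip
  have hπ := Real.pi_pos
  obtain ⟨M, hMd⟩ : ∃ M : ℝ, M = M₀ + 1 := ⟨_, rfl⟩
  have hM1 : 0 < M := by linarith
  have hcont : Continuous (kV kq) := (BL_kV hP).cont
  have hone : ∫ z in Metric.ball (1:ℂ) 1, kV kq z = 0 := by
    rw [int_kV_eq hP one_pos (by norm_num)]
    simp only [Complex.one_re, Complex.one_im]
    rw [one_pow, hP.one, mul_zero]
  refine ⟨fun z => M⁻¹ * kV kq z, M⁻¹ * (L₀ + 1), 5, M⁻¹ * -Bc, M⁻¹ * π, M⁻¹ * (π * (2 / 3)),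
    M⁻¹ * (π * C), ⟨?_, ?_, ?_, ?_, ?_, ?_, ?_, ?_, ?_, ?_, ?_⟩⟩
  · exact (continuous_const.mul hcont).measurable
  · intro z
    rw [abs_mul, abs_of_pos (inv_pos.2 hM1), inv_mul_le_one₀ hM1]
    exact (hM z).trans (by linarith)
  · intro z w
    rw [← mul_sub, abs_mul, abs_of_pos (inv_pos.2 hM1), mul_assoc]
    refine mul_le_mul_of_nonneg_left ?_ (inv_pos.2 hM1).le
    refine (hL z w).trans ?_
    have := norm_nonneg (z - w)
    nlinarith
  · intro z hz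
    show M⁻¹ * kV kq z = _
    rw [kV_far hz]
  · positivity
  · norm_num
  · positivity
  · positivity
  · positivity
  · intro ζ hζ e he he1 h
    have hc : (1 / ζ) ≠ 0 := one_div_ne_zero hζ
    have e1 : ∀ z : ℂ, M⁻¹ * kV kq (z / ζ) - M⁻¹ * kV kq z =
        M⁻¹ * (kV kq ((z - 0) * (1 / ζ)) - kV kq z) := by
      intro z
      rw [sub_zero, mul_one_div]
      ring
    simp only [e1]
    have k1 : Continuous fun z : ℂ => kV kq ((z - 0) * (1 / ζ)) := hcont.comp (by fun_prop)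
    rw [integral_const_mul, integral_sub (intOn k1 _ _) (intOn hcont _ _), hone, sub_zero,
      ball_scale hc]
    have h1 := int_kV_le hP hc he he1 h
    have h2 : (1 - (0:ℂ)) * (1 / ζ) = 1 / ζ := by ring
    rw [h2, mul_assoc, ← mul_neg]
    refine mul_le_mul_of_nonneg_left ?_ (inv_pos.2 hM1).le
    have hn : 0 < ‖1 / ζ‖ := norm_pos_iff.2 hc
    rw [inv_mul_le_iff₀ (by positivity)]
    linarith
  · intro v hv ζ hζ h m hm hm4
    have hc : (1 / ζ) ≠ 0 := one_div_ne_zero hζ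
    obtain ⟨c, hcd⟩ : ∃ c : ℂ, c = 1 / ζ := ⟨_, rfl⟩
    rw [← hcd] at h hc
    rw [← hcd]
    have e1 : ∀ z : ℂ, M⁻¹ * kV kq ((z - ((2 * m : ℝ) : ℂ) * v) / ζ) - M⁻¹ * kV kq (z / ζ) =
        M⁻¹ * (kV kq ((z - ((2 * m : ℝ) : ℂ) * v) * c) - kV kq ((z - 0) * c)) := by
      intro z
      rw [sub_zero, hcd, mul_one_div, mul_one_div]
      ring
    simp only [e1]
    have k1 : Continuous fun z : ℂ => kV kq ((z - ((2 * m : ℝ) : ℂ) * v) * c) :=
      hcont.comp (by fun_prop)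
    have k2 : Continuous fun z : ℂ => kV kq ((z - 0) * c) := hcont.comp (by fun_prop)
    rw [integral_const_mul, integral_sub (intOn k1 _ _) (intOn k2 _ _), ball_scale hc,
      ball_scale hc]
    have hn : 0 < ‖c‖ := norm_pos_iff.2 hc
    have hn1 : ‖c‖ ≤ 3 / 2 := by
      have := norm_add_le (c - 1) 1
      rw [sub_add_cancel, norm_one] at this
      linarith
    have h2 : (1 - (0:ℂ)) * c = c := by ring
    have h4 : ‖(1 - ((2 * m : ℝ) : ℂ) * v) * c‖ ≤ 7 / 6 * ‖c‖ := by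
      rw [norm_mul]
      refine mul_le_mul_of_nonneg_right ?_ hn.le
      refine (norm_sub_le _ _).trans ?_
      rw [norm_one, norm_mul, hv, Complex.norm_real, Real.norm_eq_abs,
        abs_of_nonneg (by linarith)]
      linarith
    have h5 : ‖c‖ ^ 2 = c.re ^ 2 + c.im ^ 2 := by
      rw [← Complex.normSq_eq_norm_sq, Complex.normSq_apply]
      ring
    rw [h2, int_kV_eq hP hn (by linarith), int_kV_eq hP hn (by linarith)]
    rw [h5]
    have h6 : gq ((1 - ((2 * m : ℝ) : ℂ) * v) * c).re ((1 - ((2 * m : ℝ) : ℂ) * v) * c).im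
        (c.re ^ 2 + c.im ^ 2) - gq c.re c.im (c.re ^ 2 + c.im ^ 2) =
        m * Df (m, c.re, c.im, v.re, v.im) := by
      rw [shift_re, shift_im, Dr_eq]
      rfl
    have hv1 : |v.re| ≤ 1 := by rw [← hv]; exact Complex.abs_re_le_norm v
    have hv2 : |v.im| ≤ 1 := by rw [← hv]; exact Complex.abs_im_le_norm v
    have hc1 : |c.re| ≤ 3 / 2 := (Complex.abs_re_le_norm c).trans hn1
    have hc2 : |c.im| ≤ 3 / 2 := (Complex.abs_im_le_norm c).trans hn1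
    have hc3 : |c.re - 1| ≤ ‖c - 1‖ := by
      have := Complex.abs_re_le_norm (c - 1)
      rwa [Complex.sub_re, Complex.one_re] at this
    have hc4 : |c.im| ≤ ‖c - 1‖ := by
      have := Complex.abs_im_le_norm (c - 1)
      rwa [Complex.sub_im, Complex.one_im, sub_zero] at this
    have h7 : 2 / 3 * v.re - C * (m + ‖c - 1‖) ≤ Df (m, c.re, c.im, v.re, v.im) := by
      have e2 := hC m c.re c.im v.re v.im (by rw [abs_of_pos hm]; linarith) (by linarith)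
        (by linarith) (by linarith) (by linarith)
      rw [Df_one] at e2
      have e3 : max |m| (max |c.re - 1| |c.im|) ≤ m + ‖c - 1‖ := by
        refine max_le ?_ (max_le ?_ ?_)
        · rw [abs_of_pos hm]
          linarith [norm_nonneg (c - 1)]
        · linarith
        · linarith
      have e4 := mul_le_mul_of_nonneg_left e3 hC0
      have e5 := (abs_le.1 e2).1
      linarith
    have h8 : 0 < c.re ^ 2 + c.im ^ 2 := by rw [← h5]; positivity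
    rw [← mul_sub, ← mul_sub, h6]
    have h9 : (c.re ^ 2 + c.im ^ 2)⁻¹ * (π * (c.re ^ 2 + c.im ^ 2) *
        (m * Df (m, c.re, c.im, v.re, v.im))) = π * m * Df (m, c.re, c.im, v.re, v.im) := by
      field_simp
    rw [h9]
    have h10 : (M⁻¹ * (π * (2 / 3)) * v.re - M⁻¹ * (π * C) * (m + ‖c - 1‖)) * m =
        M⁻¹ * (π * m * (2 / 3 * v.re - C * (m + ‖c - 1‖))) := by ring
    rw [h10]
    refine mul_le_mul_of_nonneg_left ?_ (inv_pos.2 hM1).le
    exact mul_le_mul_of_nonneg_left h7 (by positivity)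

end Pool.Agent.Helper12.G6
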