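import Pool.Agent.Helper17.G5.Main5
import Pool.Agent.Helper12.G6.Templ6

/-!
# The key inequality, uniformly in the direction

The gain is a constant times the square of the real part of the direction.
-/

set_option autoImplicit false
set_option linter.unusedVariables false

namespace Pool.Agent.Helper12.G6

open MeasureTheory Set Metric
open scoped Real
open Pool.Agent.Helper17.G3
open Pool.Agent.Helper17.G5

theorem con_mono {k : ℂ → ℝ} {A d m lam ν₁ : ℝ} {v ζ : ℂ} {R G G' : ℝ}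
    (h : Con k A d m lam ν₁ v ζ R G) (hG : G' ≤ G) : Con k A d m lam ν₁ v ζ R G' := by
  obtain ⟨H, h0, h1, h2, h3, h4, h5⟩ := h
  exact ⟨H, h0, h1, h2, h3, h4, h5.trans (by linarith)⟩

theorem mu_le {k : ℂ → ℝ} {Lk ρ kinf c1 c2 C2 : ℝ} (hk : Tu k Lk ρ kinf c1 c2 C2) {ν₁ : ℝ}
    (hν : 0 ≤ ν₁) {ζ : ℂ} (hζ : ζ ≠ 0) (hg : ‖1 / ζ - 1‖ ≤ 1 / 2) (y : ℂ) :
    |mu k ν₁ ζ y| ≤ ν₁ * (2 * (Lk * ρ) * ‖1 / ζ - 1‖) := by
  have hL := hk.hL
  have hρ := hk.hρ
  unfold mu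
  rw [abs_mul, abs_of_nonneg hν]
  refine mul_le_mul_of_nonneg_left ?_ hν
  rcases le_or_gt ‖y‖ (2 * ρ) with h | h
  · refine (hk.lip _ _).trans ?_
    have e1 : y / ζ - y = y * (1 / ζ - 1) := by ring
    rw [e1, norm_mul]
    have e2 : Lk * (‖y‖ * ‖1 / ζ - 1‖) ≤ Lk * (2 * ρ * ‖1 / ζ - 1‖) :=
      mul_le_mul_of_nonneg_left (mul_le_mul_of_nonneg_right h (norm_nonneg _)) hL.le
    refine e2.trans (le_of_eq ?_)
    ring
  · have e1 : 1 / 2 ≤ ‖1 / ζ‖ := by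
      have h1 : (1 : ℂ) = 1 / ζ - (1 / ζ - 1) := by ring
      have h2 := norm_sub_le (1 / ζ) (1 / ζ - 1)
      rw [← h1, norm_one] at h2
      linarith
    have e2 : ρ ≤ ‖y / ζ‖ := by
      have h1 : y / ζ = y * (1 / ζ) := by ring
      rw [h1, norm_mul]
      have h2 : 2 * ρ * (1 / 2) ≤ ‖y‖ * ‖1 / ζ‖ :=
        mul_le_mul h.le e1 (by norm_num) (norm_nonneg _)
      linarith
    rw [hk.far _ e2, hk.far y (by linarith), sub_self, abs_zero]
    positivity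

/-- template near its extremal position -/
theorem case_near {k : ℂ → ℝ} {Lk ρ kinf c1 c2 C2 : ℝ} (hk : Tu k Lk ρ kinf c1 c2 C2)
    {v : ℂ} (hv1 : ‖v‖ = 1) {e : ℝ} (he : e ≤ v.re) {A d m lam ν₁ : ℝ} (hA : 1 ≤ A) (hd : 0 < d)
    (hm : 0 < m) (hdm : (2 + A) ^ 2 * (d + m) ≤ 1) (hm12 : m ≤ 1 / 12) (hl : 0 < lam)
    (hν : 0 < ν₁) (hνL : ν₁ * (Lk * ρ) ≤ 1 / 16) (hlL : lam * Lk ≤ 1 / 24)
    (hνc : 160 * π * (ν₁ * (Lk * ρ) ^ 2) ≤ c1)
    (hlK : lam * (C2 ^ 2 / (8 * (ν₁ * c1)) + 45 * π * Lk ^ 2) ≤ c2 * e / 8)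
    (hmC : C2 * m ≤ c2 * e / 4) {ζ : ℂ} (hζ : ζ ≠ 0) (hg : ‖1 / ζ - 1‖ ≤ 1 / 2)
    {R : ℝ} (hR : 10 < R) :
    Con k A d m lam ν₁ v ζ R (lam * (c2 * e) / 4) := by
  have hL := hk.hL
  have hρ := hk.hρ
  have hc1 := hk.hc1
  have hc2 := hk.hc2
  have hC2 := hk.hC2
  have hπ := Real.pi_pos
  obtain ⟨r, hr⟩ : ∃ r : ℝ, r = ‖1 / ζ - 1‖ := ⟨_, rfl⟩
  have hr0 : 0 ≤ r := by rw [hr]; exact norm_nonneg _
  have hz : ‖1 / ζ‖ ≤ 3 / 2 := by
    have h1 : 1 / ζ = (1 / ζ - 1) + 1 := by ring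
    have h2 := norm_add_le (1 / ζ - 1) 1
    rw [← h1, norm_one] at h2
    linarith
  have hb : ∀ y, |mu k ν₁ ζ y + sh k m lam v ζ y| ≤
      ν₁ * (2 * (Lk * ρ) * r) + 3 / 2 * (lam * Lk) := by
    intro y
    refine (abs_add_le _ _).trans (add_le_add ?_ ?_)
    · rw [hr]
      exact mu_le hk hν.le hζ hg y
    · calc _ ≤ lam * Lk * ‖1 / ζ‖ := sh_le hk.lip hm hl hv1 ζ y
        _ ≤ lam * Lk * (3 / 2) := mul_le_mul_of_nonneg_left hz (by positivity)
        _ = _ := by ring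
  have i0 : IntegrableOn (fun y => k (y / ζ)) Dk :=
    int_sub_Dk (hk.meas.comp (measurable_id.div_const ζ)) fun y => hk.bd _
  have i1 : IntegrableOn k Dk := int_sub_Dk hk.meas hk.bd
  have i2 : IntegrableOn (fun y => k ((y - ((2 * m : ℝ) : ℂ) * v) / ζ)) Dk :=
    int_sub_Dk
      (hk.meas.comp ((measurable_id.sub_const _).div_const ζ)) fun y => hk.bd _
  have i01 : IntegrableOn (mu k ν₁ ζ) Dk := (i0.sub i1).const_mul _
  have i02 : IntegrableOn (sh k m lam v ζ) Dk := (i0.sub i2).const_mul _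
  have hI1 : ∫ y in Dk, mu k ν₁ ζ y ≤ -(ν₁ * (c1 * r ^ 2)) := by
    have h1 := hk.F1 ζ hζ r hr0 (by rw [hr]; linarith) hr.le
    have h2 := mul_le_mul_of_nonneg_left h1 hν.le
    unfold mu
    rw [integral_const_mul]
    refine h2.trans (le_of_eq ?_)
    ring
  have hI2 : ∫ y in Dk, sh k m lam v ζ y ≤ -(lam / 2 * (c2 * e - C2 * (m + r))) := by
    have h1 := hk.F2 v hv1 ζ hζ hg m hm hm12
    rw [← hr] at h1
    have h2 : ∀ y : ℂ, sh k m lam v ζ y =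
        -(lam / (2 * m)) * (k ((y - ((2 * m : ℝ) : ℂ) * v) / ζ) - k (y / ζ)) := fun y => by
      rw [sh]
      ring
    simp only [h2]
    rw [integral_const_mul]
    have h6 : (c2 * e - C2 * (m + r)) * m ≤ (c2 * v.re - C2 * (m + r)) * m := by
      refine mul_le_mul_of_nonneg_right ?_ hm.le
      have := mul_le_mul_of_nonneg_left he hc2.le
      linarith
    have h3 : lam / (2 * m) * ((c2 * e - C2 * (m + r)) * m) ≤ lam / (2 * m) *
        ∫ z in ball (1 : ℂ) 1, (k ((z - ((2 * m : ℝ) : ℂ) * v) / ζ) - k (z / ζ)) :=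
      mul_le_mul_of_nonneg_left (h6.trans h1) (by positivity)
    have h4 : lam / (2 * m) * ((c2 * e - C2 * (m + r)) * m) = lam / 2 * (c2 * e - C2 * (m + r)) := by
      field_simp
    have h5 : Dk = ball (1 : ℂ) 1 := rfl
    rw [h5]
    linarith
  have hI : ∫ y in Dk, (mu k ν₁ ζ y + sh k m lam v ζ y) ≤
      -(ν₁ * (c1 * r ^ 2)) - lam / 2 * (c2 * e - C2 * (m + r)) := by
    rw [integral_add i01 i02]
    linarith
  have hr2 : r ≤ 1 / 2 := by rw [hr]; exact hg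
  have h0 := case_bdd hk.meas hA hd hm hdm v ζ
    (ν := ν₁ * (2 * (Lk * ρ) * r) + 3 / 2 * (lam * Lk)) (by positivity) (by
      have : ν₁ * (2 * (Lk * ρ) * r) = ν₁ * (Lk * ρ) * (2 * r) := by ring
      rw [this]
      have h2 : ν₁ * (Lk * ρ) * (2 * r) ≤ ν₁ * (Lk * ρ) * 1 :=
        mul_le_mul_of_nonneg_left (by linarith) (by positivity)
      linarith) hb hI hR
  refine con_mono h0 ?_
  have hνc1 : 0 < ν₁ * c1 := by positivity
  -- the square
  have s1 : (ν₁ * (2 * (Lk * ρ) * r) + 3 / 2 * (lam * Lk)) ^ 2 ≤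
      8 * (ν₁ * (Lk * ρ)) ^ 2 * r ^ 2 + 9 / 2 * (lam * Lk) ^ 2 := by
    nlinarith [sq_nonneg (ν₁ * (2 * (Lk * ρ) * r) - 3 / 2 * (lam * Lk))]
  have s2 : 10 * π * (ν₁ * (2 * (Lk * ρ) * r) + 3 / 2 * (lam * Lk)) ^ 2 ≤
      10 * π * (8 * (ν₁ * (Lk * ρ)) ^ 2 * r ^ 2 + 9 / 2 * (lam * Lk) ^ 2) :=
    mul_le_mul_of_nonneg_left s1 (by positivity)
  have s3 : 10 * π * (8 * (ν₁ * (Lk * ρ)) ^ 2 * r ^ 2 + 9 / 2 * (lam * Lk) ^ 2) =
      ν₁ * r ^ 2 / 2 * (160 * π * (ν₁ * (Lk * ρ) ^ 2)) + lam * (lam * (45 * π * Lk ^ 2)) := by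
    ring
  have s4 : ν₁ * r ^ 2 / 2 * (160 * π * (ν₁ * (Lk * ρ) ^ 2)) ≤ ν₁ * r ^ 2 / 2 * c1 :=
    mul_le_mul_of_nonneg_left hνc (by positivity)
  have s5 : lam * C2 / 2 * r ≤ ν₁ * c1 / 2 * r ^ 2 + lam * (lam * (C2 ^ 2 / (8 * (ν₁ * c1)))) := by
    have h1 : 0 ≤ ν₁ * c1 / 2 * (r - lam * C2 / (2 * (ν₁ * c1))) ^ 2 := by positivity
    have h2 : ν₁ * c1 / 2 * (r - lam * C2 / (2 * (ν₁ * c1))) ^ 2 =
        ν₁ * c1 / 2 * r ^ 2 - lam * C2 / 2 * r + lam * (lam * (C2 ^ 2 / (8 * (ν₁ * c1)))) := by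
      field_simp
      ring
    linarith
  have s6 : lam * (lam * (C2 ^ 2 / (8 * (ν₁ * c1)) + 45 * π * Lk ^ 2)) ≤ lam * (c2 * e / 8) :=
    mul_le_mul_of_nonneg_left hlK hl.le
  have s7 : lam / 2 * (C2 * m) ≤ lam / 2 * (c2 * e / 4) :=
    mul_le_mul_of_nonneg_left hmC (by positivity)
  nlinarith

/-- template far from its extremal position -/
theorem case_far {k : ℂ → ℝ} {Lk ρ kinf cc c2 C2 : ℝ}
    (hk : Tu k Lk ρ kinf cc c2 C2) {c1 : ℝ} (hc1 : 0 < c1)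
    {v : ℂ} (hv1 : ‖v‖ = 1)
    {A d m lam ν₁ : ℝ} (hA : 1 ≤ A) (hd : 0 < d) (hm : 0 < m) (hdm : (2 + A) ^ 2 * (d + m) ≤ 1)
    (hl : 0 < lam) (hν : 0 < ν₁) (hν1 : ν₁ ≤ 1 / 32)
    (hνc : 640 * π * ν₁ ≤ c1) (hlL : lam * Lk ≤ 2 * ν₁) (hlc : 4 * π * (lam * Lk) ≤ ν₁ * c1)
    (hlC : 16 * π * (lam * Lk * (1 + 2 * ρ) ^ 2) ≤ ν₁ * c1)
    {ζ : ℂ} (hζ : ζ ≠ 0)
    (hF1 : ∫ z in ball (1 : ℂ) 1, (k (z / ζ) - k z) ≤ -c1) {R : ℝ} (hR : 11 + ρ ≤ R) :
    Con k A d m lam ν₁ v ζ R (ν₁ * c1 / 2) := by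
  have hLk := hk.hL
  have hρ := hk.hρ
  have hπ := Real.pi_pos
  have hζ0 : 0 < ‖ζ‖ := norm_pos_iff.mpr hζ
  have hm1 : m ≤ 1 / 2 := by nlinarith
  have hmu2 : ∀ y, |mu k ν₁ ζ y| ≤ 2 * ν₁ := by
    intro y
    have h1 := abs_sub (k (y / ζ)) (k y)
    have h2 : |k (y / ζ) - k y| ≤ 2 := by linarith [hk.bd (y / ζ), hk.bd y]
    unfold mu
    rw [abs_mul, abs_of_pos hν]
    nlinarith
  have i0 : IntegrableOn (fun y => k (y / ζ)) Dk :=
    int_sub_Dk (hk.meas.comp (measurable_id.div_const ζ)) fun y => hk.bd _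
  have i1 : IntegrableOn k Dk := int_sub_Dk hk.meas hk.bd
  have i2 : IntegrableOn (fun y => k ((y - ((2 * m : ℝ) : ℂ) * v) / ζ)) Dk :=
    int_sub_Dk
      (hk.meas.comp ((measurable_id.sub_const _).div_const ζ)) fun y => hk.bd _
  have hI1 : ∫ y in Dk, mu k ν₁ ζ y ≤ -(ν₁ * c1) := by
    have h2 : ν₁ * ∫ y in Dk, (k (y / ζ) - k y) ≤ ν₁ * -c1 :=
      mul_le_mul_of_nonneg_left hF1 hν.le
    unfold mu
    rw [integral_const_mul]
    linarith
  have i01 : IntegrableOn (mu k ν₁ ζ) Dk := (i0.sub i1).const_mul _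
  have i02 : IntegrableOn (sh k m lam v ζ) Dk := (i0.sub i2).const_mul _
  rcases le_or_gt 1 ‖ζ‖ with h1 | h1
  · -- bounded case
    have hz : ‖1 / ζ‖ ≤ 1 := by
      rw [norm_div, norm_one, div_le_one hζ0]
      exact h1
    have hb2 : ∀ y, |sh k m lam v ζ y| ≤ lam * Lk := by
      intro y
      calc _ ≤ lam * Lk * ‖1 / ζ‖ := sh_le hk.lip hm hl hv1 ζ y
        _ ≤ lam * Lk * 1 := mul_le_mul_of_nonneg_left hz (by positivity)
        _ = _ := by ring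
    have hb : ∀ y, |mu k ν₁ ζ y + sh k m lam v ζ y| ≤ 4 * ν₁ := by
      intro y
      refine (abs_add_le _ _).trans ?_
      linarith [hb2 y, hmu2 y]
    have hI : ∫ y in Dk, (mu k ν₁ ζ y + sh k m lam v ζ y) ≤ -(ν₁ * c1) + lam * Lk * π := by
      rw [integral_add i01 i02]
      have h3 : ∫ y in Dk, sh k m lam v ζ y ≤ ∫ y in Dk, lam * Lk := by
        refine integral_mono i02
          (integrableOn_const (ne_top_of_le_ne_top vol_Bt (measure_mono Dk_sub))) fun y => ?_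
        exact (le_abs_self _).trans (hb2 y)
      rw [setIntegral_const, smul_eq_mul, measureReal_def, vol_Dk] at h3
      linarith
    obtain ⟨H, g0, g1, g2, g3, g4, g5⟩ := case_bdd hk.meas hA hd hm hdm v ζ (ν := 4 * ν₁)
      (by positivity) (by linarith) hb hI (R := R) (by linarith)
    refine ⟨H, g0, g1, g2, g3, g4, g5.trans ?_⟩
    have h5 : 10 * π * (4 * ν₁) ^ 2 = ν₁ / 4 * (640 * π * ν₁) := by ring
    have h6 : ν₁ / 4 * (640 * π * ν₁) ≤ ν₁ / 4 * c1 := mul_le_mul_of_nonneg_left hνc (by positivity)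
    linarith
  · -- small scale
    set p : ℂ := ((2 * m : ℝ) : ℂ) * v with hp
    have hpn : ‖p‖ = 2 * m := by
      rw [hp, norm_mul, hv1, mul_one, Complex.norm_real, Real.norm_eq_abs,
        abs_of_pos (by positivity)]
    set S : Set ℂ := ball 0 (ρ * ‖ζ‖) ∪ ball p (ρ * ‖ζ‖) with hS
    have hSm : MeasurableSet S := measurableSet_ball.union measurableSet_ball
    have hSv : volume S ≤ ENNReal.ofReal (2 * (π * (ρ * ‖ζ‖) ^ 2)) := by
      refine (measure_union_le _ _).trans ?_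
      rw [Complex.volume_ball, Complex.volume_ball, ← ENNReal.ofReal_pow (by positivity),
        ← ENNReal.ofReal_coe_nnreal, NNReal.coe_real_pi, ← ENNReal.ofReal_mul (by positivity),
        ← ENNReal.ofReal_add (by positivity) (by positivity)]
      refine ENNReal.ofReal_le_ofReal ?_
      linarith
    have hSf : volume S ≠ ⊤ := ne_top_of_le_ne_top ENNReal.ofReal_ne_top hSv
    have hout : ∀ y, y ∉ S → sh k m lam v ζ y = 0 := by
      intro y hy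
      rw [hS, mem_union, not_or, mem_ball, mem_ball, dist_eq_norm, dist_eq_norm, not_lt, not_lt,
        sub_zero] at hy
      unfold sh
      rw [hk.far (y / ζ), hk.far ((y - ((2 * m : ℝ) : ℂ) * v) / ζ), sub_self, mul_zero]
      · rw [norm_div, le_div_iff₀ hζ0]
        exact hy.2
      · rw [norm_div, le_div_iff₀ hζ0]
        exact hy.1
    set c : ℂ → ℝ := fun y => |sh k m lam v ζ y| with hc
    have hcle : ∀ y, c y ≤ S.indicator (fun _ => lam * Lk / ‖ζ‖) y := by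
      intro y
      by_cases hy : y ∈ S
      · rw [indicator_of_mem hy]
        refine (sh_le hk.lip hm hl hv1 ζ y).trans (le_of_eq ?_)
        rw [norm_div, norm_one]
        ring
      · rw [indicator_of_notMem hy, hc]
        simp only [hout y hy, abs_zero, le_refl]
    have hc0 : ∀ y, 0 ≤ c y := fun y => abs_nonneg _
    have iM : Integrable (S.indicator fun _ : ℂ => lam * Lk / ‖ζ‖) :=
      (integrableOn_const hSf).integrable_indicator hSm
    have hcm : Measurable c := (meas_sh hk.meas m lam v ζ).abs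
    have ic : Integrable c := by
      refine Integrable.mono' iM hcm.aestronglyMeasurable
        (Filter.Eventually.of_forall fun y => ?_)
      rw [Real.norm_eq_abs, abs_of_nonneg (hc0 y)]
      exact hcle y
    have hcK : ∫ y, c y ≤ ν₁ * c1 / 4 := by
      have g1 : ∫ y, c y ≤ ∫ y, S.indicator (fun _ => lam * Lk / ‖ζ‖) y :=
        integral_mono ic iM hcle
      rw [integral_indicator hSm, setIntegral_const, smul_eq_mul, measureReal_def] at g1
      have g2 : (volume S).toReal ≤ 2 * (π * (ρ * ‖ζ‖) ^ 2) :=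
        ENNReal.toReal_le_of_le_ofReal (by positivity) hSv
      have g3 : (volume S).toReal * (lam * Lk / ‖ζ‖) ≤
          2 * (π * (ρ * ‖ζ‖) ^ 2) * (lam * Lk / ‖ζ‖) :=
        mul_le_mul_of_nonneg_right g2 (by positivity)
      have g4 : 2 * (π * (ρ * ‖ζ‖) ^ 2) * (lam * Lk / ‖ζ‖) = 2 * π * (lam * Lk * ρ ^ 2) * ‖ζ‖ := by
        field_simp
      have g5 : 2 * π * (lam * Lk * ρ ^ 2) * ‖ζ‖ ≤ 2 * π * (lam * Lk * ρ ^ 2) * 1 :=
        mul_le_mul_of_nonneg_left h1.le (by positivity)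
      have g6 : lam * Lk * ρ ^ 2 ≤ lam * Lk * (1 + 2 * ρ) ^ 2 := by
        refine mul_le_mul_of_nonneg_left ?_ (by positivity)
        nlinarith
      have g7 : 2 * π * (lam * Lk * ρ ^ 2) ≤ 2 * π * (lam * Lk * (1 + 2 * ρ) ^ 2) :=
        mul_le_mul_of_nonneg_left g6 (by positivity)
      have g8 : 0 ≤ 2 * π * (lam * Lk * (1 + 2 * ρ) ^ 2) := by positivity
      linarith
    obtain ⟨H, g0, g1, g2, g3, g4, g5⟩ := bound5 hA hd hm hdm
      (meas_mu hk.meas ν₁ ζ) (ν := 2 * ν₁) (by positivity) (by linarith) hmu2 hcm ic hc0 hcK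
    refine ⟨H, g0, g1, g2, ?_, ?_, ?_⟩
    · intro y hy
      rw [g3 y (by linarith)]
      have : y ∉ S := by
        rw [hS, mem_union, not_or, mem_ball, mem_ball, dist_eq_norm, dist_eq_norm, not_lt, not_lt,
          sub_zero]
        have e1 : ρ * ‖ζ‖ ≤ ρ := by nlinarith
        have e2 := norm_sub_norm_le y p
        constructor
        · linarith
        · rw [hpn] at e2
          linarith
      rw [hc]
      simp only [hout y this, abs_zero]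
    · intro y hy
      have e1 := g4 y hy
      have e2 : sh k m lam v ζ y ≤ c y := le_abs_self _
      unfold er
      linarith
    · refine g5.trans ?_
      have h5 : 10 * π * (2 * ν₁) ^ 2 = ν₁ / 16 * (640 * π * ν₁) := by ring
      have h6 : ν₁ / 16 * (640 * π * ν₁) ≤ ν₁ / 16 * c1 :=
        mul_le_mul_of_nonneg_left hνc (by positivity)
      nlinarith [mul_pos hν hc1]

end Pool.Agent.Helper12.G6
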