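import Pool.Agent.Helper12.G6.Key6

/-!
# The key inequality with a gain proportional to the square of the real part of the direction
-/

set_option autoImplicit false
set_option linter.unusedVariables false

namespace Pool.Agent.Helper12.G6

open MeasureTheory Set Metric
open scoped Real
open Pool.Agent.Helper17.G3
open Pool.Agent.Helper17.G5

/-- the directions -/
def Vd (e : ℝ) : Set ℂ := {v | ‖v‖ = 1 ∧ e ≤ v.re}

theorem exists_small {a b : ℝ} (ha : 0 ≤ a) (hb : 0 < b) : ∃ x : ℝ, 0 < x ∧ ∀ y : ℝ, 0 ≤ y →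
    y ≤ x → y * a ≤ b := by
  refine ⟨b / (a + 1), by positivity, fun y hy h => ?_⟩
  calc y * a ≤ b / (a + 1) * (a + 1) :=
        mul_le_mul h (by linarith) ha (by positivity)
    _ = b := by field_simp

/-- the key inequality in the `w`-plane -/
theorem keyW6 {k : ℂ → ℝ} {Lk ρ kinf c1 c2 C2 : ℝ} (hW : Tu k Lk ρ kinf c1 c2 C2) :
    ∃ γ : ℝ, 0 < γ ∧ γ ≤ 1 / 2 ∧ ∀ e : ℝ, 0 < e → e ≤ 1 → ∀ A : ℝ, 1 ≤ A →
    ∃ lam m0 d0 : ℝ, 0 < lam ∧ lam ≤ 1 ∧ 0 < m0 ∧ m0 ≤ 1 ∧ 0 < d0 ∧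
      d0 ≤ 1 / 4 ∧ d0 * (2 + A) ≤ 1 ∧ ∀ v ∈ Vd e, ∀ d : ℝ, 0 < d → d ≤ d0 → ∀ m : ℝ, 0 < m → m ≤ m0 →
      ∀ ζ : ℂ, ζ ≠ 0 → ∃ ν₁ : ℝ, 0 ≤ ν₁ ∧ ν₁ ≤ 1 ∧ ∃ H : ℂ → ℝ, Measurable H ∧ Integrable H ∧
        (∀ y, 0 ≤ H y) ∧ (∀ y, 11 + ρ ≤ ‖y‖ → H y = 0) ∧
        (∀ y : ℂ, 4 * m ≤ ‖y‖ →
          hk y - 1 / 2 + mu k ν₁ ζ y + sh k m lam v ζ y + er A d m y ≤ H y) ∧
        ∫ y, H y ≤ (1 - γ * e ^ 2) * (π / 2) := by
  have hLk := hW.hL
  have hρ := hW.hρ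
  have hc1 := hW.hc1
  have hc2 := hW.hc2
  have hC2 := hW.hC2
  have hπ := Real.pi_pos
  -- the multiplier
  obtain ⟨x1, hx1, hx1'⟩ := exists_small (a := Lk * ρ) (b := 1 / 16) (by positivity) (by norm_num)
  obtain ⟨x2, hx2, hx2'⟩ := exists_small (a := 160 * π * (Lk * ρ) ^ 2) (b := c1) (by positivity) hc1
  obtain ⟨x3, hx3, hx3'⟩ := exists_small (a := 640 * π) (b := c1 / 4) (by positivity) (by positivity)
  obtain ⟨ν₁, hν, hν1, n1, n2, n3⟩ : ∃ ν₁ : ℝ, 0 < ν₁ ∧ ν₁ ≤ 1 / 32 ∧ ν₁ * (Lk * ρ) ≤ 1 / 16 ∧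
      ν₁ * (160 * π * (Lk * ρ) ^ 2) ≤ c1 ∧ ν₁ * (640 * π) ≤ c1 / 4 := by
    have h0 : 0 < min (1 / 32) (min x1 (min x2 x3)) := by positivity
    refine ⟨min (1 / 32) (min x1 (min x2 x3)), h0, min_le_left _ _, hx1' _ h0.le ?_,
      hx2' _ h0.le ?_, hx3' _ h0.le ?_⟩
    · exact (min_le_right _ _).trans (min_le_left _ _)
    · exact (min_le_right _ _).trans ((min_le_right _ _).trans (min_le_left _ _))
    · exact (min_le_right _ _).trans ((min_le_right _ _).trans (min_le_right _ _))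
  -- the slope of `lam`
  obtain ⟨K, hK⟩ : ∃ K : ℝ, K = C2 ^ 2 / (8 * (ν₁ * c1)) + 45 * π * Lk ^ 2 := ⟨_, rfl⟩
  have hK0 : 0 ≤ K := by rw [hK]; positivity
  obtain ⟨y1, hy1, hy1'⟩ := exists_small (a := Lk) (b := 1 / 24) hLk.le (by norm_num)
  obtain ⟨y2, hy2, hy2'⟩ := exists_small (a := K) (b := c2 / 8) hK0 (by positivity)
  obtain ⟨y3, hy3, hy3'⟩ := exists_small (a := Lk) (b := 2 * ν₁) hLk.le (by positivity)
  obtain ⟨y4, hy4, hy4'⟩ := exists_small (a := 4 * π * Lk) (b := ν₁ * (c1 / 4)) (by positivity)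
    (by positivity)
  obtain ⟨y5, hy5, hy5'⟩ := exists_small (a := 16 * π * (Lk * (1 + 2 * ρ) ^ 2))
    (b := ν₁ * (c1 / 4)) (by positivity) (by positivity)
  obtain ⟨κ, hκ, hκ1, k1, k2, k3, k4, k5⟩ : ∃ κ : ℝ, 0 < κ ∧ κ ≤ 1 ∧ κ * Lk ≤ 1 / 24 ∧
      κ * K ≤ c2 / 8 ∧ κ * Lk ≤ 2 * ν₁ ∧ κ * (4 * π * Lk) ≤ ν₁ * (c1 / 4) ∧
      κ * (16 * π * (Lk * (1 + 2 * ρ) ^ 2)) ≤ ν₁ * (c1 / 4) := by
    have h0 : 0 < min 1 (min y1 (min y2 (min y3 (min y4 y5)))) := by positivity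
    have a1 : min 1 (min y1 (min y2 (min y3 (min y4 y5)))) ≤ min y1 (min y2 (min y3 (min y4 y5))) :=
      min_le_right _ _
    have a2 : min y1 (min y2 (min y3 (min y4 y5))) ≤ min y2 (min y3 (min y4 y5)) := min_le_right _ _
    have a3 : min y2 (min y3 (min y4 y5)) ≤ min y3 (min y4 y5) := min_le_right _ _
    have a4 : min y3 (min y4 y5) ≤ min y4 y5 := min_le_right _ _
    refine ⟨min 1 (min y1 (min y2 (min y3 (min y4 y5)))), h0, min_le_left _ _, hy1' _ h0.le ?_,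
      hy2' _ h0.le ?_, hy3' _ h0.le ?_, hy4' _ h0.le ?_, hy5' _ h0.le ?_⟩
    · exact a1.trans (min_le_left _ _)
    · exact a1.trans (a2.trans (min_le_left _ _))
    · exact a1.trans (a2.trans (a3.trans (min_le_left _ _)))
    · exact a1.trans (a2.trans (a3.trans (a4.trans (min_le_left _ _))))
    · exact a1.trans (a2.trans (a3.trans (a4.trans (min_le_right _ _))))
  -- the gain
  obtain ⟨g, hg, hg1, hg2, hg3⟩ : ∃ g : ℝ, 0 < g ∧ g ≤ 1 ∧ g ≤ κ * c2 / 4 ∧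
      g ≤ ν₁ * (c1 / 4) / 2 :=
    ⟨min 1 (min (κ * c2 / 4) (ν₁ * (c1 / 4) / 2)), by positivity, min_le_left _ _,
      (min_le_right _ _).trans (min_le_left _ _), (min_le_right _ _).trans (min_le_right _ _)⟩
  refine ⟨g / 4, by positivity, by linarith, ?_⟩
  intro e he he1 A hA
  have hA9 : 9 ≤ (2 + A) ^ 2 := by
    have := pow_le_pow_left₀ (by norm_num : (0 : ℝ) ≤ 3) (by linarith : 3 ≤ 2 + A) 2
    linarith
  have hAA : 2 + A ≤ (2 + A) ^ 2 := le_self_pow₀ (by linarith) (by norm_num)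
  have hee : 0 < e ^ 2 := by positivity
  have hee1 : e ^ 2 ≤ 1 := pow_le_one₀ he.le he1
  have hge : 0 < g * e ^ 2 := by positivity
  have hge1 : g * e ^ 2 ≤ 1 := mul_le_one₀ hg1 hee.le hee1
  set u : ℝ := g * e ^ 2 / (1200 * (2 + A) ^ 2) with hu
  have hu0 : 0 < u := by positivity
  have hug : 1200 * (2 + A) ^ 2 * u = g * e ^ 2 := by
    rw [hu]
    field_simp
  have hu1 : (2 + A) ^ 2 * u ≤ 1 / 1200 := by linarith
  have hu2 : u ≤ 1 / 1200 / 9 := by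
    have h1 := mul_le_mul_of_nonneg_right hA9 hu0.le
    rw [le_div_iff₀ (by norm_num)]
    linarith
  obtain ⟨z1, hz1, hz1'⟩ := exists_small (a := C2) (b := c2 * e / 4) hC2 (by positivity)
  obtain ⟨m0, hm0, hm01, hm02, hm03, hm04, hm05⟩ : ∃ m0 : ℝ, 0 < m0 ∧ m0 ≤ 1 ∧ m0 ≤ 1 / 12 ∧
      m0 ≤ u ∧ m0 ≤ u ^ 2 ∧ m0 ≤ z1 := by
    have a0 : 0 < min (1 / 12) (min u (min (u ^ 2) z1)) := by positivity
    have a1 : min (1 / 12) (min u (min (u ^ 2) z1)) ≤ min u (min (u ^ 2) z1) := min_le_right _ _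
    have a2 : min u (min (u ^ 2) z1) ≤ min (u ^ 2) z1 := min_le_right _ _
    refine ⟨min (1 / 12) (min u (min (u ^ 2) z1)), a0, (min_le_left _ _).trans (by norm_num),
      min_le_left _ _, a1.trans (min_le_left _ _), a1.trans (a2.trans (min_le_left _ _)),
      a1.trans (a2.trans (min_le_right _ _))⟩
  set lam : ℝ := κ * e with hlam
  have hl : 0 < lam := by positivity
  have hlκ : lam ≤ κ := mul_le_of_le_one_right hκ.le he1
  have hl1 : lam ≤ 1 := hlκ.trans hκ1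
  have hlm : ∀ {x y : ℝ}, 0 ≤ x → κ * x ≤ y → lam * x ≤ y := fun hx h =>
    (mul_le_mul_of_nonneg_right hlκ hx).trans h
  refine ⟨lam, m0, u, hl, hl1, hm0, hm01, hu0, by linarith, ?_, ?_⟩
  · have h1 := mul_le_mul_of_nonneg_right hAA hu0.le
    rw [mul_comm]
    linarith
  intro v hv d hd hd0 m hm hmm ζ hζ
  have hs2 : m ^ (1 / 2 : ℝ) ≤ u := by
    calc m ^ (1 / 2 : ℝ) ≤ (u ^ 2) ^ (1 / 2 : ℝ) :=
          Real.rpow_le_rpow (by positivity) (by linarith) (by norm_num)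
      _ = u := by
          rw [← Real.rpow_natCast, ← Real.rpow_mul hu0.le]
          norm_num
  have hdm : (2 + A) ^ 2 * (d + m) ≤ 1 := by
    have : (2 + A) ^ 2 * (d + m) ≤ (2 + A) ^ 2 * (u + u) :=
      mul_le_mul_of_nonneg_left (by linarith) (by positivity)
    linarith
  have hfin : ∀ G : ℝ, g * e ^ 2 ≤ G → π / 2 - G + 300 * (2 + A) ^ 2 * (d + m ^ (1 / 2 : ℝ)) ≤
      (1 - g / 4 * e ^ 2) * (π / 2) := by
    intro G hG
    have e1 : 300 * (2 + A) ^ 2 * (d + m ^ (1 / 2 : ℝ)) ≤ 300 * (2 + A) ^ 2 * (u + u) :=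
      mul_le_mul_of_nonneg_left (by linarith) (by positivity)
    have e2 : g / 4 * e ^ 2 * (π / 2) ≤ g * e ^ 2 / 2 := by
      have := mul_le_mul_of_nonneg_left Real.pi_le_four hge.le
      linarith
    linarith
  rcases le_total ‖1 / ζ - 1‖ (1 / 2) with h | h
  · obtain ⟨H, g0, g1, g2', g3', g4, g5⟩ := case_near hW hv.1 hv.2 hA hd hm hdm (by linarith) hl
      hν n1 (hlm hLk.le k1) (by linarith) (by
        rw [← hK]
        have h1 : lam * K = κ * K * e := by rw [hlam]; ring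
        rw [h1]
        have h2 := mul_le_mul_of_nonneg_right k2 he.le
        linarith) (by
        have := hz1' m hm.le (hmm.trans hm05)
        linarith) hζ h (R := 11 + ρ) (by linarith)
    refine ⟨ν₁, hν.le, by linarith, H, g0, g1, g2', g3', g4, g5.trans (hfin _ ?_)⟩
    have h1 : lam * (c2 * e) / 4 = κ * c2 / 4 * e ^ 2 := by rw [hlam]; ring
    rw [h1]
    exact mul_le_mul_of_nonneg_right hg2 hee.le
  · have hF1 := hW.F1 ζ hζ (1 / 2) (by norm_num) (by norm_num) h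
    obtain ⟨H, g0, g1, g2', g3', g4, g5⟩ := case_far hW (c1 := c1 / 4) (by positivity) hv.1 hA hd hm
      hdm hl hν hν1 (by linarith) (hlm hLk.le k3) (by
        have := hlm (x := 4 * π * Lk) (by positivity) k4
        linarith) (by
        have := hlm (x := 16 * π * (Lk * (1 + 2 * ρ) ^ 2)) (by positivity) k5
        linarith) hζ (by
        refine hF1.trans (le_of_eq ?_)
        ring) (R := 11 + ρ) le_rfl
    refine ⟨ν₁, hν.le, by linarith, H, g0, g1, g2', g3', g4, g5.trans (hfin _ ?_)⟩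
    have : g * e ^ 2 ≤ g * 1 := mul_le_mul_of_nonneg_left hee1 hg.le
    linarith

end Pool.Agent.Helper12.G6
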