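import Pool.Agent.Helper12.G6.Heights6
import Pool.Agent.Helper26.G5.Main5

/-!
# The strict bound in the right half plane, with a uniform constant
-/

set_option autoImplicit false

namespace Pool.Agent.Helper12.G6

open MeasureTheory Set
open scoped Real
open Pool.Agent.Helper26.G4 (Sg)

theorem main6 : ∃ c : ℝ, 0 < c ∧ c ≤ 1 / 8 ∧ ∀ e : ℝ, 0 < e → e ≤ 1 → ∃ δ₀ : ℝ, 0 < δ₀ ∧
    ∀ τ : ℂ, τ ≠ 0 → ‖τ‖ < δ₀ → e * ‖τ‖ ≤ τ.re → ∃ C : ℝ,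
    ∀ ψ h : ℂ → ℂ, Sg ψ h → ∀ R : ℝ, 1 < R →
      (1 / (2 * π)) * ∫ θ in (0:ℝ)..(2 * π),
        ‖Complex.exp ((2 - τ) * h ((R : ℂ) * Complex.exp ((θ : ℂ) * Complex.I)))‖ ≤
      C * (R ^ 2 / (R ^ 2 - 1)) ^ (1 - τ.re + (1 / 4 - c * e ^ 2) * ‖τ‖ ^ 2) := by
  obtain ⟨c, hc, hc8, hh⟩ := heights6
  refine ⟨c, hc, hc8, ?_⟩
  intro e he he1
  obtain ⟨δ₀, hδ₀, hδ₁, hh⟩ := hh e he he1
  refine ⟨δ₀, hδ₀, ?_⟩
  intro τ hτ0 hτ hdir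
  apply Pool.Agent.Helper26.G5.main5_core (by linarith) _ (hh τ hτ0 hτ hdir)
  have h1 : τ.re ≤ ‖τ‖ := Complex.re_le_norm τ
  have h3 : c * e ^ 2 ≤ 1 / 8 := by
    have h4 : e ^ 2 ≤ 1 := pow_le_one₀ he.le he1
    have h5 := mul_le_mul hc8 h4 (by positivity) (by norm_num)
    linarith
  have h2 : 0 ≤ (1 / 4 - c * e ^ 2) * ‖τ‖ ^ 2 := mul_nonneg (by linarith) (by positivity)
  linarith

end Pool.Agent.Helper12.G6
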