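import Pool.Agent.Helper12.G6.KeyW6
import Pool.Agent.Helper26.G5.Defs5

/-!
# Templates with a gain proportional to the square of the real part of the direction
-/

set_option autoImplicit false
set_option linter.unusedVariables false

namespace Pool.Agent.Helper12.G6

open MeasureTheory Set Metric
open scoped Real
open Pool.Agent.Helper17.G3
open Pool.Agent.Helper17.G5

/-- the key inequality in the `z`-plane -/
theorem keyZ6 {k : ℂ → ℝ} {Lk ρ kinf c1 c2 C2 : ℝ} (hW : Tu k Lk ρ kinf c1 c2 C2) :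
    ∃ γ : ℝ, 0 < γ ∧ γ ≤ 1 / 2 ∧ ∀ e : ℝ, 0 < e → e ≤ 1 → ∀ A : ℝ, 1 ≤ A →
    ∃ b m0 B d0 Cc : ℝ, 0 < b ∧ b ≤ 1 ∧ 0 < m0 ∧ m0 ≤ 1 ∧ 0 < B ∧
      0 < d0 ∧ d0 ≤ 1 / 4 ∧ 1 ≤ Cc ∧
      ∀ om : ℂ, (starRingEnd ℂ) om ∈ Vd e → ∀ d : ℝ, 0 < d → d ≤ d0 → ∀ m : ℝ, 0 < m → m ≤ m0 →
      ∀ s : ℂ, s ≠ 0 → ∀ ζ : ℂ, ζ ≠ 0 →
      ∃ ν : ℝ, 0 ≤ ν ∧ ν ≤ B * m ∧ ∃ H : ℂ → ℝ, Measurable H ∧ Integrable H ∧ (∀ z, 0 ≤ H z) ∧
        (∀ z : ℂ, 2 * ‖s‖ ≤ ‖z‖ →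
          Real.exp (d * ((om * s / z).re + A * (‖s‖ ^ 2 / ‖z‖ ^ 2))) *
              (1 - d * b * k ((z - s) / ζ)) -
            Real.exp (d * m) * (1 - d * b * k (z / ζ)) +
            ν * (d * b) * (k (z / ζ) - k (z / (om * s / (2 * m)))) ≤ d * H z) ∧
        (∀ z : ℂ, Cc * ‖s‖ / m ≤ ‖z‖ → H z = 0) ∧
        ∫ z, H z ≤ (1 - γ * e ^ 2) * (π * ‖s‖ ^ 2 / (4 * m)) := by
  obtain ⟨γ, hγ, hγ1, keyW⟩ := keyW6 hW
  refine ⟨γ, hγ, hγ1, fun e he he1 A hA => ?_⟩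
  obtain ⟨lam, m0, d0, hl, hl1, hm0, hm01, hd0, hd01, hdA, key⟩ := keyW e he he1 A hA
  have hρ := hW.hρ
  refine ⟨lam, m0, 2 / lam, d0, 11 + ρ, hl, hl1, hm0, hm01, by positivity, hd0, hd01,
    by linarith, ?_⟩
  intro om hom d hd hd1 m hm hm1 s hs ζ hζ
  set v := (starRingEnd ℂ) om with hv
  have hvn : ‖v‖ = 1 := hom.1
  have homn : ‖om‖ = 1 := by
    rw [hv, Complex.norm_conj] at hvn
    exact hvn
  have hov : om * v = 1 := by
    rw [hv, Complex.mul_conj, Complex.normSq_eq_norm_sq, homn]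
    norm_num
  have hom0 : om ≠ 0 := by
    rw [← norm_pos_iff, homn]
    exact one_pos
  have hmc : (m : ℂ) ≠ 0 := Complex.ofReal_ne_zero.mpr hm.ne'
  set a : ℂ := om * s / (2 * m) with ha
  have ha0 : a ≠ 0 := div_ne_zero (mul_ne_zero hom0 hs) (mul_ne_zero two_ne_zero hmc)
  have han : ‖a‖ = ‖s‖ / (2 * m) := by
    rw [ha, norm_div, norm_mul, norm_mul, homn, one_mul, Complex.norm_real, Real.norm_eq_abs,
      abs_of_pos hm, Complex.norm_ofNat]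
  have hsn : 0 < ‖s‖ := norm_pos_iff.mpr hs
  have hsa : s = a * (((2 * m : ℝ) : ℂ) * v) := by
    rw [ha]
    push_cast
    field_simp
    exact hov.symm
  obtain ⟨ν₁, hν, hν1, H, g0, g1, g2, g3, g4, g5⟩ := key v hom d hd hd1 m hm hm1 (ζ / a)
    (div_ne_zero hζ ha0)
  refine ⟨ν₁ * (2 * m) / lam, by positivity, ?_, fun z => 2 * m * H (z / a), ?_, ?_, ?_, ?_, ?_, ?_⟩
  · have : ν₁ * (2 * m) / lam ≤ 1 * (2 * m) / lam := by gcongr
    refine this.trans (le_of_eq ?_)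
    ring
  · exact (g0.comp (measurable_id.div_const a)).const_mul _
  · exact (integrable_div g1 ha0).const_mul _
  · intro z
    have := g2 (z / a)
    positivity
  · intro z hz
    have hz0 : 0 < ‖z‖ := by linarith
    have hz0' : z ≠ 0 := norm_pos_iff.mp hz0
    set w := z / a with hw
    have hwn : ‖w‖ = 2 * m * ‖z‖ / ‖s‖ := by
      rw [hw, norm_div, han]
      field_simp
    have hw4 : 4 * m ≤ ‖w‖ := by
      rw [hwn, le_div_iff₀ hsn]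
      nlinarith
    have hw0 : 0 < ‖w‖ := by linarith
    have hw0' : w ≠ 0 := norm_pos_iff.mp hw0
    have e1 : z / ζ = w / (ζ / a) := by
      rw [hw]
      field_simp
    have e2 : (z - s) / ζ = (w - ((2 * m : ℝ) : ℂ) * v) / (ζ / a) := by
      rw [hw]
      nth_rewrite 1 [hsa]
      field_simp
    have e3 : (om * s / z).re + A * (‖s‖ ^ 2 / ‖z‖ ^ 2) =
        2 * m * hk w + A * (4 * m ^ 2 / ‖w‖ ^ 2) := by
      have e4 : om * s / z = ((2 * m : ℝ) : ℂ) * w⁻¹ := by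
        rw [hw, ha]
        push_cast
        field_simp
      have e5 : hk w = (w⁻¹).re := by
        rw [hk, Complex.inv_re, Complex.normSq_eq_norm_sq]
      rw [e4, Complex.re_ofReal_mul, e5, hwn]
      congr 2
      field_simp
      ring
    have h1 := pt hA hd (by nlinarith) hm hl.le hl1 (hW.bd (w / (ζ / a)))
      (hW.bd ((w - ((2 * m : ℝ) : ℂ) * v) / (ζ / a))) hw4
    have h2 := g4 w hw4
    rw [e1, e2, e3]
    have h3 : ν₁ * (2 * m) / lam * (d * lam) * (k (w / (ζ / a)) - k w) =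
        d * (2 * m) * mu k ν₁ (ζ / a) w := by
      rw [mu]
      field_simp
    rw [h3]
    have h4 : d * (2 * m) * (hk w - 1 / 2 + mu k ν₁ (ζ / a) w + sh k m lam v (ζ / a) w +
        er A d m w) ≤ d * (2 * m) * H w := mul_le_mul_of_nonneg_left h2 (by positivity)
    have h5 : d * (2 * m) * (hk w - 1 / 2 + lam / (2 * m) * (k (w / (ζ / a)) -
        k ((w - ((2 * m : ℝ) : ℂ) * v) / (ζ / a))) +
        (2 * A * m / ‖w‖ ^ 2 + d * ((2 + A) ^ 2 / 2 * (1 / ‖w‖) + 1 / 2))) +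
        d * (2 * m) * mu k ν₁ (ζ / a) w = d * (2 * m) * (hk w - 1 / 2 + mu k ν₁ (ζ / a) w +
          sh k m lam v (ζ / a) w + er A d m w) := by
      rw [sh, er]
      ring
    linarith
  · intro z hz
    have : H (z / a) = 0 := by
      refine g3 _ ?_
      rw [norm_div, han, le_div_iff₀ (by positivity)]
      rw [div_le_iff₀ hm] at hz
      have : (11 + ρ) * (‖s‖ / (2 * m)) = (11 + ρ) * ‖s‖ / (2 * m) := by ring
      rw [this, div_le_iff₀ (by positivity)]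
      nlinarith [norm_nonneg z]
    show 2 * m * H (z / a) = 0
    rw [this, mul_zero]
  · rw [integral_const_mul, int_div H ha0, han]
    calc 2 * m * ((‖s‖ / (2 * m)) ^ 2 * ∫ w, H w) ≤
        2 * m * ((‖s‖ / (2 * m)) ^ 2 * ((1 - γ * e ^ 2) * (π / 2))) := by
          refine mul_le_mul_of_nonneg_left ?_ (by positivity)
          exact mul_le_mul_of_nonneg_left g5 (by positivity)
      _ = (1 - γ * e ^ 2) * (π * ‖s‖ ^ 2 / (4 * m)) := by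
          field_simp
          ring

open Pool.Agent.Helper26.G5 (Tk) in
theorem tk6 : ∃ γ : ℝ, 0 < γ ∧ γ ≤ 1 / 2 ∧ ∀ e : ℝ, 0 < e → e ≤ 1 →
    ∃ (κ : ℂ → ℝ) (b B Cc m₁ : ℝ), (0 < b ∧ b ≤ 1 ∧ 0 ≤ B ∧ 1 ≤ Cc ∧ 0 < m₁) ∧
    ∀ ω : ℂ, ‖ω‖ = 1 → e ≤ ω.re → Tk κ ω b (γ * e ^ 2) B Cc m₁ := by
  obtain ⟨κ, Lk, ρ, kinf, c1, c2, C2, hW⟩ := exists_tu
  obtain ⟨γ, hγ, hγ1, hkey⟩ := keyZ6 hW
  refine ⟨γ, hγ, hγ1, fun e he he1 => ?_⟩
  obtain ⟨b, m0, B, d0, Cc, hb, hb1, hm0, hm01, hB, hd0, hd01, hCc, key⟩ := hkey e he he1 1 le_rfl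
  have hm : 0 < min (min m0 d0) (1 / 4) := by positivity
  have h1 : min (min m0 d0) (1 / 4) ≤ m0 := (min_le_left _ _).trans (min_le_left _ _)
  have h2 : min (min m0 d0) (1 / 4) ≤ d0 := (min_le_left _ _).trans (min_le_right _ _)
  have h3 : min (min m0 d0) (1 / 4) ≤ 1 / 4 := min_le_right _ _
  have he2 : 0 < e ^ 2 := by positivity
  have he3 : e ^ 2 ≤ 1 := pow_le_one₀ he.le he1
  refine ⟨κ, b, B, Cc, min (min m0 d0) (1 / 4), ⟨hb, hb1, hB.le, hCc, hm⟩,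
    fun ω hω hre => ⟨hW.meas, hW.bd, hb, hb1, by positivity, ?_, hB.le, hCc, hm, h3, ?_⟩⟩
  · nlinarith
  intro d m hd hd1 hm' hm1 s ζ hs hζ
  have hv : (starRingEnd ℂ) ω ∈ Vd e :=
    ⟨by rw [Complex.norm_conj]; exact hω, by rw [Complex.conj_re]; exact hre⟩
  obtain ⟨ν, hν, hν1, H, g0, g1, g2, g3, g4, g5⟩ :=
    key ω hv d hd (hd1.trans h2) m hm' (hm1.trans h1) s hs ζ hζ
  refine ⟨ν, hν, hν1.trans (mul_le_of_le_one_right hB.le ((hm1.trans h1).trans hm01)), H, g0, g1, g2,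
    g4, fun z hz => ?_, g5⟩
  have := g3 z hz
  rw [one_mul] at this
  exact this

end Pool.Agent.Helper12.G6
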